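import Pool.Agent.H3.D2G.RecG

/-!
# Another centre and another unit

`RecG.mvl`: the record with the centre `t'`, the unit `q'`, and lists of windows which are points of
the given lists. `RecG.mvs`: the centre `t + x q` and the unit `lam q`, the same windows.
-/

set_option autoImplicit false

namespace Pool.PKG

open Pool.Agent.H49.Ent Pool.Agent.H32.Dense Pool.STK Pool.KA Pool.KSAT Pool.K2S Pool.PB
open Pool.GEN Pool.S6C Pool.STAT Pool.CHT Pool.GRW Pool.ONE Pool.STA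
open Pool.LBT (LSys ThrOf)
open Pool.LEV (Law)
open Pool.ALL (RateOf)

variable {m : ℕ}

theorem KgQ.mvl {k : Kg} {L T : ℝ → ℝ → ℝ} {s t t' K K' q q' ε ε' : ℝ} (h : KgQ k L T s t K q ε)
    (hb : ∀ x : ℝ, |x - t'| ≤ K' * q' → |x - t| ≤ K * q) (hε : ∀ x : ℝ, |x - t'| ≤ K' * q' →
      ε * q ≤ ε' * q') : KgQ k L T s t' K' q' ε' := by
  have key : ∀ a w : ℝ, t' - K' * q' ≤ w → w ≤ a → a ≤ t' + K' * q' →
      t - K * q ≤ w ∧ a ≤ t + K * q ∧ ε * q ≤ ε' * q' := by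
    intro a w a1 a2 a3
    have b1 : |w - t'| ≤ K' * q' := by rw [abs_le]; constructor <;> linarith
    have b2 : |a - t'| ≤ K' * q' := by rw [abs_le]; constructor <;> linarith
    have c1 := abs_le.1 (hb w b1)
    have c2 := abs_le.1 (hb a b2)
    exact ⟨by linarith [c1.1], by linarith [c2.2], hε w b1⟩
  cases k
  · exact h
  · refine ⟨h.1, fun a w a1 a2 a3 => ?_⟩
    obtain ⟨c1, c2, c3⟩ := key a w a1 a2 a3
    exact (h.2 a w c1 a2 c2).trans (by linarith)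
  · refine ⟨h.1, fun a w a1 a2 a3 => ?_⟩
    obtain ⟨c1, c2, c3⟩ := key a w a1 a2 a3
    exact (h.2 a w c1 a2 c2).trans (by linarith)
  · refine ⟨h.1, fun a w a1 a2 a3 => ?_⟩
    obtain ⟨c1, c2, c3⟩ := key a w a1 a2 a3
    exact (h.2 a w c1 a2 c2).trans (by linarith)
  · trivial

/-- **The record of one target**: another centre, another unit. -/
theorem RecT.mvl {S : PCl m} {P P₂ : List (Fin m) × Fin m → ℝ → ℝ → ℝ} {θ θ₂ : ℝ}
    {c : ℕ → Fin m} {l : ℕ} {L : ℕ → ℝ → ℝ → ℝ} {S₀ N N₁ : ℕ} {A V A₁ V₁ : ℕ → ℝ} {S₂ N' N₁' : ℕ}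
    {V' V₁' : ℕ → ℝ} {Eb e₂ K K' q q' t t' : ℝ}
    (h : RecT S P P₂ θ θ₂ c l L S₀ N A V S₂ N' V' Eb e₂ K q t)
    (hb : ∀ x : ℝ, |x - t'| ≤ K' * q' → |x - t| ≤ K * q) (hK : K' * q' ≤ K * q)
    (hN : ∀ k < N₁, ∃ j < N, t' + A₁ k * q' = t + A j * q ∧ t' + V₁ k * q' = t + V j * q)
    (hN' : ∀ k < N₁', ∃ j < N', t' + V₁' k * q' = t + V' j * q) :
    RecT S P P₂ θ θ₂ c l L S₀ N₁ A₁ V₁ S₂ N₁' V₁' Eb e₂ K' q' t' := by
  refine ⟨h.thr₂, h.th₂0, h.Eb0, ?_, fun x hx => h.eθ x (hb x hx), fun j hj x hx => ?_,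
    fun k hk => ?_, fun k hk => ?_, fun k hk => ?_, fun k hk => ?_⟩
  · have := h.Ebe
    linarith
  · have := h.room j hj x (hb x hx)
    linarith
  · obtain ⟨j, hj, e1, e2⟩ := hN k hk
    rw [e1, e2]
    exact h.pt j hj
  · obtain ⟨j, hj, e1, e2⟩ := hN k hk
    rw [e1, e2]
    exact h.rat j hj
  · obtain ⟨j, hj, e1⟩ := hN' k hk
    rw [e1]
    exact h.ptc j hj
  · obtain ⟨j, hj, e1⟩ := hN' k hk
    rw [e1]
    exact h.ratc j hj

variable {S : PCl m} {al : ℝ} {g₀ : ℝ → ℝ} {P : List (Fin m) × Fin m → ℝ → ℝ → ℝ}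
  {θ : ℝ} {P₂ : ℕ → List (Fin m) × Fin m → ℝ → ℝ → ℝ} {θ₂ Eb e₂ : ℕ → ℝ}
  {c : ℕ → Fin m} {Pt : ℝ → ℝ → ℝ} {r : ℝ → ℝ} {h K₀ g : ℝ} {L T : ℕ → ℝ → ℝ → ℝ}
  {Sl : ℕ → ℝ} {κ : ℕ → Kg} {G : Set ℝ} {S₀ N : ℕ} {A V : ℕ → ℝ} {S₂ N' : ℕ} {V' : ℕ → ℝ}
  {K ε q t : ℝ}

/-- **Another centre `t'`, another unit `q'`, lists of the same points.** -/
theorem RecG.mvl {N₁ N₁' : ℕ} {A₁ V₁ V₁' : ℕ → ℝ} {K' K₀' ε' q' t' : ℝ} (hm : 1 ≤ m)
    (R : RecG S al g₀ P θ P₂ θ₂ Eb e₂ c Pt r h K₀ g L T Sl κ G S₀ N A V S₂ N' V' K ε q t)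
    (hq : 0 < q') (hK' : 0 ≤ K') (h1 : K' * q' + |t' - t| ≤ K * q)
    (h2 : K₀ * q + |t' - t| ≤ K₀' * q') (h3 : 2 * (ε * q) ≤ ε' * q')
    (h4 : K' * q' + |Sl (m - 1)| * |t' - t| + ε * q ≤ K * q)
    (hN : ∀ k < N₁, ∃ j < N, t' + A₁ k * q' = t + A j * q ∧ t' + V₁ k * q' = t + V j * q)
    (hN' : ∀ k < N₁', ∃ j < N', t' + V₁' k * q' = t + V' j * q) :
    RecG S al g₀ P θ P₂ θ₂ Eb e₂ c Pt r h K₀' g L T Sl κ G S₀ N₁ A₁ V₁ S₂ N₁' V₁' K' ε' q' t' := by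
  have hKq : 0 ≤ K' * q' := by positivity
  have habs := abs_nonneg (t' - t)
  have hb : ∀ x : ℝ, |x - t'| ≤ K' * q' → |x - t| ≤ K * q := fun x hx => by
    have e1 : x - t = (x - t') + (t' - t) := by ring
    rw [e1]
    exact (abs_add_le _ _).trans ((add_le_add hx le_rfl).trans h1)
  have hK : K' * q' ≤ K * q := by linarith
  have ht : |t' - t| ≤ K * q := by linarith
  have hε0 : 0 ≤ ε * q := (abs_nonneg _).trans (R.l0 t' ht)
  have hε : ε * q ≤ ε' * q' := by linarith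
  refine ⟨R.ne, R.al0, R.g₀pos, R.clx, R.thr, R.th0, R.tgs, R.rate, R.inj, R.c0, R.law, R.lv,
    R.lawL, hq, ?_, ?_, ?_, ⟨fun k hk => ?_, fun k hk => ?_⟩, fun k hk => ?_, fun k hk => ?_,
    fun l hl x hx => ?_, fun l hl x hx => ?_, R.s0,
    fun x hx => (R.l0 x (hb x hx)).trans hε, fun l hl => (R.kd l hl).mvl hb fun _ _ => hε,
    fun x y hx hy hxy => ?_, fun l h1 h2 => (R.tg l h1 h2).mvl hb hK hN hN', R.tgl⟩
  · have := R.t0
    have := (abs_le.1 (le_refl |t' - t|)).1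
    linarith
  · have := R.t1
    have := (abs_le.1 (le_refl |t' - t|)).2
    linarith
  · have e1 : t' - g = (t - g) + (t' - t) := by ring
    rw [e1]
    exact (abs_add_le _ _).trans ((add_le_add R.near le_rfl).trans h2)
  · obtain ⟨j, hj, e1, e2⟩ := hN k hk
    rw [e1, e2]
    exact R.memG.1 j hj
  · obtain ⟨j, hj, e1⟩ := hN' k hk
    rw [e1]
    exact R.memG.2 j hj
  · obtain ⟨j, hj, e1, e2⟩ := hN k hk
    rw [e1, e2]
    exact R.TL j hj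
  · obtain ⟨j, hj, e1⟩ := hN' k hk
    rw [e1]
    exact R.TLc j hj
  · have a1 := abs_le.1 (R.dL l hl x (hb x hx))
    have a2 := abs_le.1 (R.dL l hl t' ht)
    have e1 : Sl l * (x - t') = Sl l * (x - t) - Sl l * (t' - t) := by ring
    rw [e1, abs_le]
    constructor <;> linarith [a1.1, a1.2, a2.1, a2.2]
  · have a1 := abs_le.1 (R.dT l hl x (hb x hx))
    have a2 := abs_le.1 (R.dL l hl t' ht)
    have e1 : Sl l * (x - t') = Sl l * (x - t) - Sl l * (t' - t) := by ring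
    rw [e1, abs_le]
    constructor <;> linarith [a1.1, a1.2, a2.1, a2.2]
  · have a2 := R.dL (m - 1) (by omega) t' ht
    have key : ∀ z : ℝ, |z - L (m - 1) t' t'| ≤ K' * q' → |z - L (m - 1) t t| ≤ K * q := by
      intro z hz
      have e1 : z - L (m - 1) t t = (z - L (m - 1) t' t') +
          ((L (m - 1) t' t' - L (m - 1) t t - Sl (m - 1) * (t' - t)) + Sl (m - 1) * (t' - t)) := by
        ring
      rw [e1]
      refine (abs_add_le _ _).trans (le_trans (add_le_add hz ((abs_add_le _ _).trans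
        (add_le_add a2 (le_of_eq (abs_mul _ _))))) ?_)
      linarith
    exact (R.row x y (key x hx) (key y hy) hxy).trans (by linarith)

/-- **The centre `t + x q`, the unit `lam q`, the same windows.** -/
theorem RecG.mvs {x lam K₁ K₂ ε₁ : ℝ} (hm : 1 ≤ m)
    (R : RecG S al g₀ P θ P₂ θ₂ Eb e₂ c Pt r h K₀ g L T Sl κ G S₀ N A V S₂ N' V' K ε q t)
    (hlam : 0 < lam) (hK₁ : 0 ≤ K₁) (h1 : K₁ * lam + |x| ≤ K) (h2 : K₀ + |x| ≤ K₂ * lam)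
    (h3 : 2 * ε ≤ ε₁ * lam) (h4 : K₁ * lam + |Sl (m - 1)| * |x| + ε ≤ K) :
    RecG S al g₀ P θ P₂ θ₂ Eb e₂ c Pt r h K₂ g L T Sl κ G S₀ N (fun k => (A k - x) / lam)
      (fun k => (V k - x) / lam) S₂ N' (fun k => (V' k - x) / lam) K₁ ε₁ (lam * q)
      (t + x * q) := by
  have hq := R.q0
  have e0 : t + x * q - t = x * q := by ring
  have e1 : |x * q| = |x| * q := by rw [abs_mul, abs_of_pos hq]
  have e2 : ∀ a : ℝ, t + x * q + (a - x) / lam * (lam * q) = t + a * q := fun a => by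
    field_simp
    ring
  have m1 := mul_le_mul_of_nonneg_right h1 hq.le
  have m2 := mul_le_mul_of_nonneg_right h2 hq.le
  have m3 := mul_le_mul_of_nonneg_right h3 hq.le
  have m4 := mul_le_mul_of_nonneg_right h4 hq.le
  refine R.mvl hm (mul_pos hlam hq) hK₁ ?_ ?_ ?_ ?_ (fun k hk => ⟨k, hk, e2 _, e2 _⟩)
    (fun k hk => ⟨k, hk, e2 _⟩)
  · rw [e0, e1]
    linarith
  · rw [e0, e1]
    linarith
  · linarith
  · rw [e0, e1]
    linarith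

/-- **The centre `t + x q`, the unit `lam q`**, new lists from points of the old ones. -/
theorem RecG.mvsl {N₁ N₁' : ℕ} {A₁ V₁ V₁' : ℕ → ℝ} {x lam K₁ K₂ ε₁ : ℝ} (hm : 1 ≤ m)
    (R : RecG S al g₀ P θ P₂ θ₂ Eb e₂ c Pt r h K₀ g L T Sl κ G S₀ N A V S₂ N' V' K ε q t)
    (hlam : 0 < lam) (hK₁ : 0 ≤ K₁) (h1 : K₁ * lam + |x| ≤ K) (h2 : K₀ + |x| ≤ K₂ * lam)
    (h3 : 2 * ε ≤ ε₁ * lam) (h4 : K₁ * lam + |Sl (m - 1)| * |x| + ε ≤ K)
    (hN : ∀ k < N₁, ∃ j < N, x + lam * A₁ k = A j ∧ x + lam * V₁ k = V j)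
    (hN' : ∀ k < N₁', ∃ j < N', x + lam * V₁' k = V' j) :
    RecG S al g₀ P θ P₂ θ₂ Eb e₂ c Pt r h K₂ g L T Sl κ G S₀ N₁ A₁ V₁ S₂ N₁' V₁' K₁ ε₁ (lam * q)
      (t + x * q) := by
  have hq := R.q0
  have e0 : t + x * q - t = x * q := by ring
  have e1 : |x * q| = |x| * q := by rw [abs_mul, abs_of_pos hq]
  have m1 := mul_le_mul_of_nonneg_right h1 hq.le
  have m2 := mul_le_mul_of_nonneg_right h2 hq.le
  have m3 := mul_le_mul_of_nonneg_right h3 hq.le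
  have m4 := mul_le_mul_of_nonneg_right h4 hq.le
  refine R.mvl hm (mul_pos hlam hq) hK₁ ?_ ?_ ?_ ?_ (fun k hk => ?_) (fun k hk => ?_)
  · rw [e0, e1]
    linarith
  · rw [e0, e1]
    linarith
  · linarith
  · rw [e0, e1]
    linarith
  · obtain ⟨j, hj, k1, k2⟩ := hN k hk
    refine ⟨j, hj, ?_, ?_⟩
    · rw [← k1]
      ring
    · rw [← k2]
      ring
  · obtain ⟨j, hj, k1⟩ := hN' k hk
    refine ⟨j, hj, ?_⟩
    rw [← k1]
    ring

end Pool.PKG
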