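import Pool.Agent.H63.AB.Stp
import Pool.Agent.H28.AB.Dig
import Pool.Agent.H62.AB.NumR
import Pool.Agent.H92.D2.FreeN

/-!
# Conversions of class facts

From relative numbers to few bits and alive; other digits of the same label; the parts of a joint
quantity; the rows with more digits in the condition, the first row, and the rows below the natural
level.
-/

set_option autoImplicit false

namespace Pool.AB91

open Finset Real MvPolynomial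
open Pool.Agent.H49.Ent Pool.Agent.H32.Dense Pool.STK Pool.KA Pool.KSAT Pool.K2S Pool.PB Pool.GEN
open Pool.S6C Pool.RCD Pool.LA91 Pool.OWN68 Pool.AJW Pool.AJX Pool.CHT Pool.PN18 Pool.LPK12
open Pool.TE46 Pool.AB63 Pool.AB62 Pool.AB28
open Pool.TWO28 (ch_dig)

variable {m : ℕ} {α β γ : ∀ J : ℕ, Fam m J → Type}
  {f : ∀ (J : ℕ) (F : Fam m J), F.Ω → α J F} {g : ∀ (J : ℕ) (F : Fam m J), F.Ω → β J F}
  {y : ∀ (J : ℕ) (F : Fam m J), F.Ω → γ J F} {S : PCl m}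
  {U U₁ U₂ Up : Type} {Qp : Qt m Up} {Q : Qt m U} {Q₁ : Qt m U₁} {Q₂ : Qt m U₂}

/-! ### (n1), (n2) -/

/-- **Few bits from the number.** -/
theorem fewC_of_rnn
    (hpos : ∀ (τ : ℝ) (J : ℕ) (F : Fam m J) (A : F.Ω → Prop), S.St τ J F A → 0 < Pe F.p A)
    (hη : ∃ η, RNum S f g η) {θ : ℝ} (N : RNN S f g y Qp Q θ) : FewC S f g y Qp Q θ := by
  obtain ⟨η, hη⟩ := hη
  intro h hh
  obtain ⟨k, hk, e₀, he₀, H⟩ := N h hh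
  refine ⟨e₀, he₀, fun K => Bas.mono 0 ((H K).and (mx_ex hpos hη k hk)) ?_⟩
  rintro J - F A ⟨H, V, z, hz⟩ u u' hu hu'
  refine ⟨V, z, hz.1, ?_⟩
  have h1 := (abs_le.1 (H V z hz u u' hu hu')).2
  linarith

/-- **Alive from the number.** -/
theorem alf_of_rnn
    (hpos : ∀ (τ : ℝ) (J : ℕ) (F : Fam m J) (A : F.Ω → Prop), S.St τ J F A → 0 < Pe F.p A)
    {a : ℝ} (hη : ∃ η, RNum S f (vg a) η) {θ : ℝ} (N : RNN S f (vg a) y Qp Q θ) (h : ℝ)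
    (hh : 0 < h) : ∃ e₀ : ℝ, 0 < e₀ ∧ AlF S f a y Qp Q e₀ (θ - h) := by
  obtain ⟨η, hη⟩ := hη
  obtain ⟨e₀, he₀, H⟩ := N.low hpos hη h hh
  refine ⟨e₀, he₀, fun K => Bas.mono 0 (H K) ?_⟩
  intro J _ F A H u u' hu hu' V z hz
  exact H V z hz u u' hu hu'

/-! ### (n3), (n4) -/

section dig

variable {I : Finset (Fin m)} {k : Fin m} {j : ℕ} {w p N N' : ℝ}

/-- **Few bits: more digits.** -/
theorem f1_dg {C₀ : ℝ} (htm : TmC S C₀) {e δ δ' g' : ℝ}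
    (h : F1 S f g y Qp (qJet m I k j w p N') e δ) (hN : N ≤ N' + g') (hg : 0 ≤ g')
    (hδ : δ + g' * Real.log 2 < δ') : F1 S f g y Qp (qJet m I k j w p N) e δ' := by
  obtain ⟨M, hM⟩ := qj_dig m I k j w p N N'
  obtain ⟨J₀, hJ₀⟩ := exists_nat_ge (Real.log 9 / (δ' - (δ + g' * Real.log 2)))
  intro K
  refine Bas.mono (max 1 J₀) ((h (K + M)).and (Pool.GRW.tmc_bas htm one_pos)) ?_
  rintro J hJ F A ⟨h, hA, -⟩ u u' hu hu'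
  obtain ⟨u₂, hu₂, hC⟩ := hM K e J F A u' ((le_max_left _ _).trans hJ) hu'
  obtain ⟨V, z, hz, h1⟩ := h u u₂ (Qp.mono (by omega) le_rfl hu) hu₂
  refine ⟨V, z, hz, ?_⟩
  have h0 := (isLaw_cond F.isLaw hA).nonneg
  have h2 := (hC hA g' hg).1 hN
  have h3 := CH_le_add h0 u' u₂ (fun ω => (u ω, (z ω, y J F ω)))
  have h4 : CH (Pool.Agent.H49.Ent.cond F.p A True) u'
      (fun ω => (u₂ ω, (u ω, (z ω, y J F ω)))) ≤
      CH (Pool.Agent.H49.Ent.cond F.p A True) u' u₂ :=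
    CH_mono_cond h0 fun _ _ _ _ hh => (Prod.ext_iff.mp hh).1
  have h5 : Real.log 9 ≤ (δ' - (δ + g' * Real.log 2)) * J := by
    have h6 : (J₀ : ℝ) ≤ J := by exact_mod_cast (le_max_right _ _).trans hJ
    have h7 := hJ₀.trans h6
    rw [div_le_iff₀ (by linarith)] at h7
    linarith
  linarith

theorem fewC_dg {C₀ : ℝ} (htm : TmC S C₀) {c c' g' : ℝ}
    (h : FewC S f g y Qp (qJet m I k j w p N') c) (hN : N ≤ N' + g') (hg : 0 ≤ g')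
    (hc : c + g' * Real.log 2 ≤ c') : FewC S f g y Qp (qJet m I k j w p N) c' := by
  intro e he
  obtain ⟨e₀, he₀, h1⟩ := h (e / 2) (half_pos he)
  exact ⟨e₀, he₀, f1_dg (S := S) (f := f) (g := g) (y := y) htm h1 hN hg (by linarith)⟩

/-- **Alive: fewer digits.** -/
theorem alf_dg {C₀ : ℝ} (htm : TmC S C₀) {a e b b' g' : ℝ}
    (h : AlF S f a y Qp (qJet m I k j w p N) e b) (hN : N ≤ N' + g') (hg : 0 ≤ g')
    (hb : b' < b - g' * Real.log 2) : AlF S f a y Qp (qJet m I k j w p N') e b' := by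
  obtain ⟨M, hM⟩ := qj_dig m I k j w p N' N
  obtain ⟨J₀, hJ₀⟩ := exists_nat_ge (Real.log 9 / (b - g' * Real.log 2 - b'))
  intro K
  refine Bas.mono (max 1 J₀) ((h (K + M)).and (Pool.GRW.tmc_bas htm one_pos)) ?_
  rintro J hJ F A ⟨h, hA, -⟩ u u' hu hu' V z hz
  obtain ⟨u₂, hu₂, hC⟩ := hM K e J F A u' ((le_max_left _ _).trans hJ) hu'
  have h1 := h u u₂ (Qp.mono (by omega) le_rfl hu) hu₂ V z hz
  have h0 := (isLaw_cond F.isLaw hA).nonneg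
  have h2 := (hC hA g' hg).2 hN
  have h3 := CH_le_add h0 u₂ u' (fun ω => (u ω, (z ω, y J F ω)))
  have h4 : CH (Pool.Agent.H49.Ent.cond F.p A True) u₂
      (fun ω => (u' ω, (u ω, (z ω, y J F ω)))) ≤
      CH (Pool.Agent.H49.Ent.cond F.p A True) u₂ u' :=
    CH_mono_cond h0 fun _ _ _ _ hh => (Prod.ext_iff.mp hh).1
  have h5 : Real.log 9 ≤ (b - g' * Real.log 2 - b') * J := by
    have h6 : (J₀ : ℝ) ≤ J := by exact_mod_cast (le_max_right _ _).trans hJ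
    have h7 := hJ₀.trans h6
    rw [div_le_iff₀ (by linarith)] at h7
    linarith
  linarith

end dig

/-! ### (n5), (n6) -/

/-- **The first part** of a joint quantity. -/
theorem f1_fst {C₀ : ℝ} (htm : TmC S C₀) {e δ : ℝ} (h : F1 S f g y Qp (Q₁.prod Q₂) e δ)
    (hx : ∃ K : ℕ, Bas S (fun J F A => ∃ u₂, Q₂.P K e J F A u₂)) : F1 S f g y Qp Q₁ e δ := by
  obtain ⟨K₂, hx⟩ := hx
  intro K
  refine Bas.mono 0 (((h (max K K₂)).and hx).and (Pool.GRW.tmc_bas htm one_pos)) ?_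
  rintro J - F A ⟨⟨h, u₂, hu₂⟩, hA, -⟩ u u₁ hu hu₁
  obtain ⟨V, z, hz, h1⟩ := h u (fun ω => (u₁ ω, u₂ ω)) (Qp.mono (le_max_left _ _) le_rfl hu)
    (Qt.prod_mk (Q₁.mono (le_max_left _ _) le_rfl hu₁) (Q₂.mono (le_max_right _ _) le_rfl hu₂))
  refine ⟨V, z, hz, le_trans (CH_mono_left (isLaw_cond F.isLaw hA).nonneg
    fun _ _ _ _ hh => ?_) h1⟩
  exact (Prod.ext_iff.mp (Prod.ext_iff.mp hh).1).1

/-- **The second part** of a joint quantity. -/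
theorem f1_snd {C₀ : ℝ} (htm : TmC S C₀) {e δ : ℝ} (h : F1 S f g y Qp (Q₁.prod Q₂) e δ)
    (hx : ∃ K : ℕ, Bas S (fun J F A => ∃ u₁, Q₁.P K e J F A u₁)) : F1 S f g y Qp Q₂ e δ := by
  obtain ⟨K₂, hx⟩ := hx
  intro K
  refine Bas.mono 0 (((h (max K K₂)).and hx).and (Pool.GRW.tmc_bas htm one_pos)) ?_
  rintro J - F A ⟨⟨h, u₁, hu₁⟩, hA, -⟩ u u₂ hu hu₂
  obtain ⟨V, z, hz, h1⟩ := h u (fun ω => (u₁ ω, u₂ ω)) (Qp.mono (le_max_left _ _) le_rfl hu)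
    (Qt.prod_mk (Q₁.mono (le_max_right _ _) le_rfl hu₁) (Q₂.mono (le_max_left _ _) le_rfl hu₂))
  refine ⟨V, z, hz, le_trans (CH_mono_left (isLaw_cond F.isLaw hA).nonneg
    fun _ _ _ _ hh => ?_) h1⟩
  exact (Prod.ext_iff.mp (Prod.ext_iff.mp hh).1).2

theorem exs_ex {Q : Qt m U} (hx : Exs S Q) {e : ℝ} (he : 0 < e) :
    ∃ K : ℕ, Bas S (fun J F A => ∃ u, Q.P K e J F A u) := by
  obtain ⟨K, M, h⟩ := hx e he
  exact ⟨K, Bas.mono 0 h fun J _ F A ⟨u, hu, _⟩ => ⟨u, hu⟩⟩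

theorem fewC_fst {C₀ : ℝ} (htm : TmC S C₀) {c : ℝ} (h : FewC S f g y Qp (Q₁.prod Q₂) c)
    (hx : Exs S Q₂) : FewC S f g y Qp Q₁ c := by
  intro e he
  obtain ⟨e₀, he₀, h1⟩ := h e he
  exact ⟨e₀, he₀, f1_fst (S := S) (f := f) (g := g) (y := y) htm h1 (exs_ex hx he₀)⟩

theorem fewC_snd {C₀ : ℝ} (htm : TmC S C₀) {c : ℝ} (h : FewC S f g y Qp (Q₁.prod Q₂) c)
    (hx : Exs S Q₁) : FewC S f g y Qp Q₂ c := by
  intro e he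
  obtain ⟨e₀, he₀, h1⟩ := h e he
  exact ⟨e₀, he₀, f1_snd (S := S) (f := f) (g := g) (y := y) htm h1 (exs_ex hx he₀)⟩

/-- **The second part is alive** if the first one has few bits. -/
theorem alf_snd {C₀ : ℝ} (htm : TmC S C₀) {a e b δ : ℝ} (h : AlF S f a y Qp (Q₁.prod Q₂) e b)
    (h1 : F1 S f (vg a) y Qp Q₁ e δ) (hx : ∃ K : ℕ, Bas S (fun J F A => ∃ u₁, Q₁.P K e J F A u₁)) :
    AlF S f a y Qp Q₂ e (b - δ) := by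
  obtain ⟨K₁, hx⟩ := hx
  intro K
  refine Bas.mono 0 (((h (max K K₁)).and (h1 (max K K₁))).and
    (hx.and (Pool.GRW.tmc_bas htm one_pos))) ?_
  rintro J - F A ⟨⟨h, h1⟩, ⟨u₁, hu₁⟩, hA, -⟩ u u₂ hu hu₂ V z hz
  have h0 := (isLaw_cond F.isLaw hA).nonneg
  obtain ⟨V₁, z₁, hz₁, h2⟩ := h1 u u₁ (Qp.mono (le_max_left _ _) le_rfl hu)
    (Q₁.mono (le_max_right _ _) le_rfl hu₁)
  have h3 := h u (fun ω => (u₁ ω, u₂ ω)) (Qp.mono (le_max_left _ _) le_rfl hu)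
    (Qt.prod_mk (Q₁.mono (le_max_right _ _) le_rfl hu₁) (Q₂.mono (le_max_left _ _) le_rfl hu₂))
    _ _ (hz.join hz₁)
  have h4 := CH_subadd h0 u₁ u₂ (fun ω => (u ω, ((z ω, z₁ ω), y J F ω)))
  have h5 : CH (Pool.Agent.H49.Ent.cond F.p A True) u₁
      (fun ω => (u ω, ((z ω, z₁ ω), y J F ω))) ≤
      CH (Pool.Agent.H49.Ent.cond F.p A True) u₁ (fun ω => (u ω, (z₁ ω, y J F ω))) :=
    CH_mono_cond h0 fun _ _ _ _ hh => by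
      simp only [Prod.mk.injEq] at hh ⊢
      exact ⟨hh.1, hh.2.1.2, hh.2.2⟩
  have h6 : CH (Pool.Agent.H49.Ent.cond F.p A True) u₂
      (fun ω => (u ω, ((z ω, z₁ ω), y J F ω))) ≤
      CH (Pool.Agent.H49.Ent.cond F.p A True) u₂ (fun ω => (u ω, (z ω, y J F ω))) :=
    CH_mono_cond h0 fun _ _ _ _ hh => by
      simp only [Prod.mk.injEq] at hh ⊢
      exact ⟨hh.1, hh.2.1.1, hh.2.2⟩
  linarith

/-- **The first part is alive** if the second one has few bits. -/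
theorem alf_fst {C₀ : ℝ} (htm : TmC S C₀) {a e b δ : ℝ} (h : AlF S f a y Qp (Q₁.prod Q₂) e b)
    (h1 : F1 S f (vg a) y Qp Q₂ e δ) (hx : ∃ K : ℕ, Bas S (fun J F A => ∃ u₂, Q₂.P K e J F A u₂)) :
    AlF S f a y Qp Q₁ e (b - δ) := by
  obtain ⟨K₁, hx⟩ := hx
  intro K
  refine Bas.mono 0 (((h (max K K₁)).and (h1 (max K K₁))).and
    (hx.and (Pool.GRW.tmc_bas htm one_pos))) ?_
  rintro J - F A ⟨⟨h, h1⟩, ⟨u₂, hu₂⟩, hA, -⟩ u u₁ hu hu₁ V z hz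
  have h0 := (isLaw_cond F.isLaw hA).nonneg
  obtain ⟨V₁, z₁, hz₁, h2⟩ := h1 u u₂ (Qp.mono (le_max_left _ _) le_rfl hu)
    (Q₂.mono (le_max_right _ _) le_rfl hu₂)
  have h3 := h u (fun ω => (u₁ ω, u₂ ω)) (Qp.mono (le_max_left _ _) le_rfl hu)
    (Qt.prod_mk (Q₁.mono (le_max_left _ _) le_rfl hu₁) (Q₂.mono (le_max_right _ _) le_rfl hu₂))
    _ _ (hz.join hz₁)
  have h4 := CH_subadd h0 u₁ u₂ (fun ω => (u ω, ((z ω, z₁ ω), y J F ω)))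
  have h5 : CH (Pool.Agent.H49.Ent.cond F.p A True) u₂
      (fun ω => (u ω, ((z ω, z₁ ω), y J F ω))) ≤
      CH (Pool.Agent.H49.Ent.cond F.p A True) u₂ (fun ω => (u ω, (z₁ ω, y J F ω))) :=
    CH_mono_cond h0 fun _ _ _ _ hh => by
      simp only [Prod.mk.injEq] at hh ⊢
      exact ⟨hh.1, hh.2.1.2, hh.2.2⟩
  have h6 : CH (Pool.Agent.H49.Ent.cond F.p A True) u₁
      (fun ω => (u ω, ((z ω, z₁ ω), y J F ω))) ≤
      CH (Pool.Agent.H49.Ent.cond F.p A True) u₁ (fun ω => (u ω, (z ω, y J F ω))) :=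
    CH_mono_cond h0 fun _ _ _ _ hh => by
      simp only [Prod.mk.injEq] at hh ⊢
      exact ⟨hh.1, hh.2.1.1, hh.2.2⟩
  linarith

/-! ### (n7) -/

theorem ipf_mono {w a e e' k k' κ κ' : ℝ} (h : IpF S f w a y Qp Q₁ Q₂ e k κ) (he : e' ≤ e)
    (hk : k' ≤ k) (hκ : κ ≤ κ') : IpF S f w a y Qp Q₁ Q₂ e' k' κ' := by
  intro K
  refine Bas.mono 0 (h K) ?_
  intro J _ F A h V z hz V₁ z₁ hz₁ pa uo ut hpa huo hut
  have hJ0 : (0 : ℝ) ≤ J := Nat.cast_nonneg J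
  have h1 := h V z ⟨hz.1, fun V' z' hz' => (hz.2 V' z' hz').trans
    (mul_le_mul_of_nonneg_right hk hJ0)⟩ V₁ z₁ hz₁ pa uo ut (Qp.mono le_rfl he hpa)
    (Q₁.mono le_rfl he huo) (Q₂.mono le_rfl he hut)
  have h2 := mul_le_mul_of_nonneg_right hκ hJ0
  linarith

theorem IpF.sub {S' : PCl m} (hs : ∀ (τ : ℝ) (J : ℕ) (F : Fam m J) (A : F.Ω → Prop),
    S'.St τ J F A → S.St τ J F A) {w a e k κ : ℝ} (h : IpF S f w a y Qp Q₁ Q₂ e k κ) :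
    IpF S' f w a y Qp Q₁ Q₂ e k κ := fun K => (h K).sub hs

theorem NpF.sub {S' : PCl m} (hs : ∀ (τ : ℝ) (J : ℕ) (F : Fam m J) (A : F.Ω → Prop),
    S'.St τ J F A → S.St τ J F A) {Ψ : Fm2 m} {w e δ : ℝ} (h : NpF S Ψ w Qp e δ) :
    NpF S' Ψ w Qp e δ := by
  obtain ⟨K, h⟩ := h
  exact ⟨K, h.sub hs⟩

theorem NpF.mono {Ψ : Fm2 m} {w e e' δ δ' : ℝ} (h : NpF S Ψ w Qp e δ) (he : e ≤ e')
    (hδ : δ ≤ δ') : NpF S Ψ w Qp e' δ' := by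
  obtain ⟨K, h⟩ := h
  refine ⟨K, Bas.mono 0 h ?_⟩
  intro J _ F A h V C z z' G₁ G₂ cc hcc
  obtain ⟨pa, h1, h2⟩ := h V C z z' G₁ G₂ cc hcc
  exact ⟨pa, Qp.mono le_rfl he h1, h2.trans (mul_le_mul_of_nonneg_right hδ (Nat.cast_nonneg J))⟩

theorem tmc_sub {S' : PCl m} (hs : ∀ (τ : ℝ) (J : ℕ) (F : Fam m J) (A : F.Ω → Prop),
    S'.St τ J F A → S.St τ J F A) {C₀ : ℝ} (h : TmC S C₀) : TmC S' C₀ :=
  fun τ J F A hτ hSt => h τ J F A hτ (hs _ _ _ _ hSt)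

theorem fw2_sub {S' : PCl m} (hs : ∀ (τ : ℝ) (J : ℕ) (F : Fam m J) (A : F.Ω → Prop),
    S'.St τ J F A → S.St τ J F A) {Ψ : Fm2 m} {a e δ : ℝ}
    {τ : ∀ (J : ℕ) (_ : Fam m J), Type → Type → Type}
    {X : ∀ (J : ℕ) (F : Fam m J) (V C : Type), (LnT F → V) →
      (V → MvPolynomial (Option (Fin m)) ℝ) → (V → MvPolynomial (Option (Fin m)) ℝ) →
      (LnT F → C) → F.Ω → τ J F V C} (h : Fw2 S f a y Qp Ψ X e δ) :
    Fw2 S' f a y Qp Ψ X e δ := fun K => (h K).sub hs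

/-- **The common data of a step** in a subclass. -/
theorem StC.sub {S' : PCl m} (hne : S'.Ne) (hs : ∀ (τ : ℝ) (J : ℕ) (F : Fam m J)
    (A : F.Ω → Prop), S'.St τ J F A → S.St τ J F A) {c : ℕ → Fin m} {r K : ℕ} {Ψ₀ : Fm2 m}
    {e : ℝ} {E : ℕ → ℝ} {b w t : ℝ} {rd p : ℕ → ℝ} {X : ℕ → ℕ → ℝ} {δn δs δc : ℝ}
    (D : StC S c r K Ψ₀ e E b w t rd p X Qp δn δs δc) :
    StC S' c r K Ψ₀ e E b w t rd p X Qp δn δs δc where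
  ne := hne
  tm := by
    obtain ⟨C₀, h⟩ := D.tm
    exact ⟨C₀, tmc_sub hs h⟩
  w0 := D.w0
  wt := D.wt
  t1 := D.t1
  her := D.her
  ex := D.ex.sub hs
  pa := by
    obtain ⟨K₀, h⟩ := D.pa
    exact ⟨K₀, h.sub hs⟩
  np := NpF.sub hs D.np
  self := fun K => (D.self K).sub hs
  ctx := fun K => (D.ctx K).sub hs

/-! ### (n8), (n9) -/

/-- The digits of the jets of order `0` of a label. -/
theorem oj_dig {J : ℕ} {F : Fam m J} {q : F.Ω → ℝ} (hq : IsLaw q) (κ : Fin m) {V : Type}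
    (z' : LnT F → V) (G : V → MvPolynomial (Option (Fin m)) ℝ) (W i : ℕ) {n n' g' : ℝ}
    (hn : n ≤ n' + g') (hg : 0 ≤ g') :
    CH q (fun ω => ⌊(2 : ℝ) ^ (n * J) * ojet F κ i (G (z' (slam F W ω))) ω⌋)
      (fun ω => ⌊(2 : ℝ) ^ (n' * J) * ojet F κ i (G (z' (slam F W ω))) ω⌋) ≤
      g' * J * Real.log 2 + Real.log 9 := ch_dig hq _ hn hg

/-- **More digits of the other label** in the condition. -/
theorem rw2_shift {C₀ : ℝ} (htm : TmC S C₀) {Ψ : Fm2 m} {κ₁ κ₂ : Fin m}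
    {w p₁ p₂ a₁ a₂ q h e e' s : ℝ} {N₀ : ℕ} (H : Rw2 S Ψ κ₁ κ₂ w p₁ p₂ a₁ a₂ q h e N₀)
    (hs : 0 ≤ s) (he : e < e') : Rw2 S Ψ κ₁ κ₂ w p₁ (p₂ + s) a₁ a₂ q h e' N₀ := by
  obtain ⟨J₀, hJ₀⟩ := exists_nat_ge (Real.log 9 / (e' - e))
  intro i j hij hj
  refine Bas.mono J₀ ((H i j hij hj).and (Pool.GRW.tmc_bas htm one_pos)) ?_
  rintro J hJ F A ⟨h1, hA, -⟩ V C z z' G₁ G₂ c hc
  have hcl := isLaw_cond F.isLaw hA
  have h0 := hcl.nonneg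
  have h2 := h1 V C z z' G₁ G₂ c hc
  have h3 := oj_dig hcl κ₂ z' G₂ ⌊w * J⌋₊ 0 (n := p₂ + a₂ * (q - q * i / N₀))
    (n' := p₂ + s + a₂ * (q - q * i / N₀)) (g' := 0) (by linarith) le_rfl
  obtain ⟨X, hX⟩ : ∃ X : F.Ω → ℤ, X = fun ω => ⌊(2 : ℝ) ^ ((p₁ + a₁ * (q - q * i / N₀)) * J) *
    ojet F κ₁ 0 (G₁ (z' (slam F ⌊w * J⌋₊ ω))) ω⌋ := ⟨_, rfl⟩
  obtain ⟨Y, hY⟩ : ∃ Y : F.Ω → ℤ, Y = fun ω => ⌊(2 : ℝ) ^ ((p₁ + a₁ * (q - q * j / N₀)) * J) *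
    ojet F κ₁ 0 (G₁ (z' (slam F ⌊w * J⌋₊ ω))) ω⌋ := ⟨_, rfl⟩
  obtain ⟨Z, hZ⟩ : ∃ Z : F.Ω → ℤ, Z = fun ω => ⌊(2 : ℝ) ^ ((p₂ + a₂ * (q - q * i / N₀)) * J) *
    ojet F κ₂ 0 (G₂ (z' (slam F ⌊w * J⌋₊ ω))) ω⌋ := ⟨_, rfl⟩
  obtain ⟨Z', hZ'⟩ : ∃ Z' : F.Ω → ℤ, Z' = fun ω =>
    ⌊(2 : ℝ) ^ ((p₂ + s + a₂ * (q - q * i / N₀)) * J) *
    ojet F κ₂ 0 (G₂ (z' (slam F ⌊w * J⌋₊ ω))) ω⌋ := ⟨_, rfl⟩
  obtain ⟨R, hR⟩ : ∃ R : F.Ω → V × (C × (ℕ × F.ζ)), R = fun ω =>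
    (z' (slam F ⌊w * J⌋₊ ω), (c (slam F ⌊w * J⌋₊ ω), F.W ω)) := ⟨_, rfl⟩
  obtain ⟨p, hp⟩ : ∃ p : F.Ω → ℝ, p = Pool.Agent.H49.Ent.cond F.p A True := ⟨_, rfl⟩
  rw [← hp] at h0 h2 h3 ⊢
  have g2 : CH p X (fun ω => (Y ω, (Z ω, R ω))) ≤
      ((a₁ - h) * ((q - q * i / N₀) - (q - q * j / N₀)) * Real.log 2 + e) * J := by
    rw [hX, hY, hZ, hR]
    exact h2
  have g3 : CH p Z Z' ≤ 0 * J * Real.log 2 + Real.log 9 := by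
    rw [hZ, hZ']
    exact h3
  have g4 := CH_le_add h0 X Z (fun ω => (Y ω, (Z' ω, R ω)))
  have g5 : CH p Z (fun ω => (Y ω, (Z' ω, R ω))) ≤ CH p Z Z' :=
    CH_mono_cond h0 fun _ _ _ _ hh => (Prod.ext_iff.mp (Prod.ext_iff.mp hh).2).1
  have g6 : CH p X (fun ω => (Z ω, (Y ω, (Z' ω, R ω)))) ≤ CH p X (fun ω => (Y ω, (Z ω, R ω))) :=
    CH_mono_cond h0 fun _ _ _ _ hh => by
      simp only [Prod.mk.injEq] at hh ⊢
      exact ⟨hh.2.1, hh.1, hh.2.2.2⟩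
  have h5 : Real.log 9 ≤ (e' - e) * J := by
    have h6 : (J₀ : ℝ) ≤ J := by exact_mod_cast hJ
    have h7 := hJ₀.trans h6
    rw [div_le_iff₀ (by linarith)] at h7
    linarith
  have g7 : CH p X (fun ω => (Y ω, (Z' ω, R ω))) ≤
      ((a₁ - h) * ((q - q * i / N₀) - (q - q * j / N₀)) * Real.log 2 + e') * J := by
    linarith
  rw [hX, hY, hZ', hR] at g7
  exact g7

/-- **The first row.** -/
theorem row1_of {Ψ : Fm2 m} {κ₁ κ₂ : Fin m} {w p₁ p₂ a q h e : ℝ} {N₀ j : ℕ}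
    (H : Rw2 S Ψ.swap κ₂ κ₁ w p₂ p₁ a a q h e N₀) (hj : j ≤ N₀) :
    Row1 S Ψ κ₁ κ₂ w (p₁ + a * q) (p₂ + a * (q - q * j / N₀)) (a * (q * j / N₀))
      ((a - h) * (q * j / N₀) * Real.log 2 + e) := by
  refine Bas.mono 0 (H 0 j (Nat.zero_le _) hj) ?_
  intro J _ F A h1 V C z z' G₁ G₂ c hc
  have h2 := h1 V C z z' G₂ G₁ c hc
  have e1 : p₂ + a * (q - q * ((0 : ℕ) : ℝ) / N₀) =
      p₂ + a * (q - q * j / N₀) + a * (q * j / N₀) := by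
    push_cast
    ring
  have e2 : p₁ + a * (q - q * ((0 : ℕ) : ℝ) / N₀) = p₁ + a * q := by
    push_cast
    ring
  have e3 : (a - h) * ((q - q * ((0 : ℕ) : ℝ) / N₀) - (q - q * j / N₀)) * Real.log 2 + e =
      (a - h) * (q * j / N₀) * Real.log 2 + e := by
    push_cast
    ring
  rw [e1, e2, e3] at h2
  exact h2

/-- **The rows below the natural level** `p₂`. -/
theorem rw2_ext {C₀ : ℝ} (htm : TmC S C₀) {Ψ : Fm2 m} {κ₁ κ₂ : Fin m}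
    {w p₁ p₂ a q h e e₁ e' : ℝ} {N₀ : ℕ} (H : Rw2 S Ψ.swap κ₂ κ₁ w p₂ p₁ a a q h e N₀)
    (hnat : Bas S (fun J F A => ∀ (V C : Type) (z : PtT F → V) (z' : LnT F → V)
      (G₁ G₂ : V → MvPolynomial (Option (Fin m)) ℝ) (c : LnT F → C), Ψ J F A V C z z' G₁ G₂ c →
      CH (Pool.Agent.H49.Ent.cond F.p A True) (oj F κ₂ z' G₂ ⌊w * J⌋₊ p₂ 0)
        (fun ω => (z' (slam F ⌊w * J⌋₊ ω), (c (slam F ⌊w * J⌋₊ ω), F.W ω))) ≤ e₁ * J))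
    (hN₀ : 0 < N₀) (hq : 0 ≤ q) (ha : 0 ≤ a) (hha : h ≤ a) (he : 0 ≤ e) (he1 : 0 ≤ e₁)
    (he₁ : e + e₁ < e') :
    Rw2 S Ψ.swap κ₂ κ₁ w (p₂ - a * q) (p₁ - a * q) a a (2 * q) h e' (2 * N₀) := by
  have hN0 : (0 : ℝ) < N₀ := by exact_mod_cast hN₀
  obtain ⟨J₀, hJ₀⟩ := exists_nat_ge (Real.log 9 / (e' - (e + e₁)))
  have l2 : 0 ≤ Real.log 2 := Real.log_nonneg (by norm_num)
  -- the levels
  have lev : ∀ (p : ℝ) (i : ℕ), p - a * q + a * (2 * q - 2 * q * i / ((2 * N₀ : ℕ) : ℝ)) =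
      p + a * (q - q * i / N₀) := fun p i => by
    push_cast
    field_simp
    ring
  have lev2 : ∀ i j : ℕ, (a - h) * ((2 * q - 2 * q * i / ((2 * N₀ : ℕ) : ℝ)) -
      (2 * q - 2 * q * j / ((2 * N₀ : ℕ) : ℝ))) = (a - h) * (q * ((j : ℝ) - i) / N₀) := fun i j => by
    push_cast
    field_simp
    ring
  have lev3 : ∀ i j : ℕ, (a - h) * ((q - q * i / (N₀ : ℝ)) - (q - q * j / N₀)) =
      (a - h) * (q * ((j : ℝ) - i) / N₀) := fun i j => by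
    field_simp
    ring
  have levN : p₂ + a * (q - q * N₀ / N₀) = p₂ := by
    field_simp
    ring
  intro i j hij hj
  have hij' : (i : ℝ) ≤ j := by exact_mod_cast hij
  -- the errors
  have hlog : ∀ J : ℕ, J₀ ≤ J → Real.log 9 ≤ (e' - (e + e₁)) * J := fun J hJ => by
    have h6 : (J₀ : ℝ) ≤ J := by exact_mod_cast hJ
    have h7 := hJ₀.trans h6
    rw [div_le_iff₀ (by linarith)] at h7
    linarith
  have hah : 0 ≤ a - h := by linarith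
  rcases le_or_gt j N₀ with hjN | hjN
  · refine Bas.mono J₀ (H i j hij hjN) ?_
    intro J hJ F A h1 V C z z' G₁ G₂ c hc
    have h2 := h1 V C z z' G₁ G₂ c hc
    rw [lev p₂ i, lev p₂ j, lev p₁ i, lev2 i j]
    refine h2.trans (mul_le_mul_of_nonneg_right ?_ (Nat.cast_nonneg J))
    rw [lev3 i j]
    linarith
  have hjN' : (N₀ : ℝ) ≤ j := by exact_mod_cast hjN.le
  rcases le_or_gt i N₀ with hiN | hiN
  · refine Bas.mono J₀ ((H i N₀ hiN le_rfl).and (hnat.and (Pool.GRW.tmc_bas htm one_pos))) ?_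
    rintro J hJ F A ⟨h1, h2, hA, -⟩ V C z z' G₁ G₂ c hc
    have hcl := isLaw_cond F.isLaw hA
    have h0 := hcl.nonneg
    have h3 := h1 V C z z' G₁ G₂ c hc
    have h4 := h2 V C z z' G₂ G₁ c hc
    rw [levN] at h3
    rw [lev3 i N₀] at h3
    rw [lev p₂ i, lev p₂ j, lev p₁ i, lev2 i j]
    obtain ⟨X, hX⟩ : ∃ X : F.Ω → ℤ, X = fun ω => ⌊(2 : ℝ) ^ ((p₂ + a * (q - q * i / N₀)) * J) *
      ojet F κ₂ 0 (G₁ (z' (slam F ⌊w * J⌋₊ ω))) ω⌋ := ⟨_, rfl⟩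
    obtain ⟨Y, hY⟩ : ∃ Y : F.Ω → ℤ, Y = fun ω => ⌊(2 : ℝ) ^ ((p₂ + a * (q - q * j / N₀)) * J) *
      ojet F κ₂ 0 (G₁ (z' (slam F ⌊w * J⌋₊ ω))) ω⌋ := ⟨_, rfl⟩
    obtain ⟨Y₀, hY₀⟩ : ∃ Y₀ : F.Ω → ℤ, Y₀ = fun ω => ⌊(2 : ℝ) ^ (p₂ * J) *
      ojet F κ₂ 0 (G₁ (z' (slam F ⌊w * J⌋₊ ω))) ω⌋ := ⟨_, rfl⟩
    obtain ⟨Z, hZ⟩ : ∃ Z : F.Ω → ℤ, Z = fun ω => ⌊(2 : ℝ) ^ ((p₁ + a * (q - q * i / N₀)) * J) *
      ojet F κ₁ 0 (G₂ (z' (slam F ⌊w * J⌋₊ ω))) ω⌋ := ⟨_, rfl⟩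
    obtain ⟨R, hR⟩ : ∃ R : F.Ω → V × (C × (ℕ × F.ζ)), R = fun ω =>
      (z' (slam F ⌊w * J⌋₊ ω), (c (slam F ⌊w * J⌋₊ ω), F.W ω)) := ⟨_, rfl⟩
    obtain ⟨p, hp⟩ : ∃ p : F.Ω → ℝ, p = Pool.Agent.H49.Ent.cond F.p A True := ⟨_, rfl⟩
    rw [← hp] at h0 h3 h4 ⊢
    have g2 : CH p X (fun ω => (Y₀ ω, (Z ω, R ω))) ≤
        ((a - h) * (q * ((N₀ : ℝ) - i) / N₀) * Real.log 2 + e) * J := by
      rw [hX, hY₀, hZ, hR]
      exact h3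
    have g3 : CH p Y₀ R ≤ e₁ * J := by
      rw [hY₀, hR]
      exact h4
    have g4 := CH_le_add h0 X Y₀ (fun ω => (Y ω, (Z ω, R ω)))
    have g5 : CH p Y₀ (fun ω => (Y ω, (Z ω, R ω))) ≤ CH p Y₀ R :=
      CH_mono_cond h0 fun _ _ _ _ hh => (Prod.ext_iff.mp (Prod.ext_iff.mp hh).2).2
    have g6 : CH p X (fun ω => (Y₀ ω, (Y ω, (Z ω, R ω)))) ≤ CH p X (fun ω => (Y₀ ω, (Z ω, R ω))) :=
      CH_mono_cond h0 fun _ _ _ _ hh => by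
        simp only [Prod.mk.injEq] at hh ⊢
        exact ⟨hh.1, hh.2.2.1, hh.2.2.2⟩
    have g8 : (a - h) * (q * ((N₀ : ℝ) - i) / N₀) * Real.log 2 ≤
        (a - h) * (q * ((j : ℝ) - i) / N₀) * Real.log 2 := by
      refine mul_le_mul_of_nonneg_right (mul_le_mul_of_nonneg_left ?_ hah) l2
      refine div_le_div_of_nonneg_right (mul_le_mul_of_nonneg_left (by linarith) hq) hN0.le
    have hJ0 : (0 : ℝ) ≤ J := Nat.cast_nonneg J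
    have g9 := mul_le_mul_of_nonneg_right g8 hJ0
    have g10 := hlog J hJ
    have l9 : 0 ≤ Real.log 9 := Real.log_nonneg (by norm_num)
    have g7 : CH p X (fun ω => (Y ω, (Z ω, R ω))) ≤
        ((a - h) * (q * ((j : ℝ) - i) / N₀) * Real.log 2 + e') * J := by
      linarith
    rw [hX, hY, hZ, hR] at g7
    exact g7
  · refine Bas.mono J₀ (hnat.and (Pool.GRW.tmc_bas htm one_pos)) ?_
    rintro J hJ F A ⟨h2, hA, -⟩ V C z z' G₁ G₂ c hc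
    have hcl := isLaw_cond F.isLaw hA
    have h0 := hcl.nonneg
    have h4 := h2 V C z z' G₂ G₁ c hc
    rw [lev p₂ i, lev p₂ j, lev p₁ i, lev2 i j]
    have hiN' : (N₀ : ℝ) ≤ i := by exact_mod_cast hiN.le
    have hle : a * (q - q * i / N₀) ≤ 0 := by
      refine mul_nonpos_of_nonneg_of_nonpos ha ?_
      have : q ≤ q * i / N₀ := by
        rw [le_div_iff₀ hN0]
        exact mul_le_mul_of_nonneg_left hiN' hq
      linarith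
    have h3 := oj_dig hcl κ₂ z' G₁ ⌊w * J⌋₊ 0 (n := p₂ + a * (q - q * i / N₀)) (n' := p₂)
      (g' := 0) (by linarith) le_rfl
    obtain ⟨X, hX⟩ : ∃ X : F.Ω → ℤ, X = fun ω => ⌊(2 : ℝ) ^ ((p₂ + a * (q - q * i / N₀)) * J) *
      ojet F κ₂ 0 (G₁ (z' (slam F ⌊w * J⌋₊ ω))) ω⌋ := ⟨_, rfl⟩
    obtain ⟨Y, hY⟩ : ∃ Y : F.Ω → ℤ, Y = fun ω => ⌊(2 : ℝ) ^ ((p₂ + a * (q - q * j / N₀)) * J) *
      ojet F κ₂ 0 (G₁ (z' (slam F ⌊w * J⌋₊ ω))) ω⌋ := ⟨_, rfl⟩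
    obtain ⟨Y₀, hY₀⟩ : ∃ Y₀ : F.Ω → ℤ, Y₀ = fun ω => ⌊(2 : ℝ) ^ (p₂ * J) *
      ojet F κ₂ 0 (G₁ (z' (slam F ⌊w * J⌋₊ ω))) ω⌋ := ⟨_, rfl⟩
    obtain ⟨Z, hZ⟩ : ∃ Z : F.Ω → ℤ, Z = fun ω => ⌊(2 : ℝ) ^ ((p₁ + a * (q - q * i / N₀)) * J) *
      ojet F κ₁ 0 (G₂ (z' (slam F ⌊w * J⌋₊ ω))) ω⌋ := ⟨_, rfl⟩
    obtain ⟨R, hR⟩ : ∃ R : F.Ω → V × (C × (ℕ × F.ζ)), R = fun ω =>
      (z' (slam F ⌊w * J⌋₊ ω), (c (slam F ⌊w * J⌋₊ ω), F.W ω)) := ⟨_, rfl⟩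
    obtain ⟨p, hp⟩ : ∃ p : F.Ω → ℝ, p = Pool.Agent.H49.Ent.cond F.p A True := ⟨_, rfl⟩
    rw [← hp] at h0 h3 h4 ⊢
    have g3 : CH p Y₀ R ≤ e₁ * J := by
      rw [hY₀, hR]
      exact h4
    have g2 : CH p X Y₀ ≤ 0 * J * Real.log 2 + Real.log 9 := by
      rw [hX, hY₀]
      exact h3
    have g4 := CH_le_add h0 X Y₀ (fun ω => (Y ω, (Z ω, R ω)))
    have g5 : CH p Y₀ (fun ω => (Y ω, (Z ω, R ω))) ≤ CH p Y₀ R :=
      CH_mono_cond h0 fun _ _ _ _ hh => (Prod.ext_iff.mp (Prod.ext_iff.mp hh).2).2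
    have g6 : CH p X (fun ω => (Y₀ ω, (Y ω, (Z ω, R ω)))) ≤ CH p X Y₀ :=
      CH_mono_cond h0 fun _ _ _ _ hh => (Prod.ext_iff.mp hh).1
    have hJ0 : (0 : ℝ) ≤ J := Nat.cast_nonneg J
    have g8 : 0 ≤ (a - h) * (q * ((j : ℝ) - i) / N₀) * Real.log 2 :=
      mul_nonneg (mul_nonneg hah (div_nonneg (mul_nonneg hq (by linarith)) hN0.le)) l2
    have g9 := mul_nonneg g8 hJ0
    have g10 := hlog J hJ
    have g11 : 0 ≤ e * (J : ℝ) := mul_nonneg he hJ0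
    have g7 : CH p X (fun ω => (Y ω, (Z ω, R ω))) ≤
        ((a - h) * (q * ((j : ℝ) - i) / N₀) * Real.log 2 + e') * J := by
      linarith
    rw [hX, hY, hZ, hR] at g7
    exact g7

end Pool.AB91
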