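import Pool.Agent.H91.AB.Nmf

/-!
# Rows at other levels and on other grids

`rw2_lvl`: the rows at nearby levels of the first label and with more digits of the second one.
`rw2_sub`: the rows on a coarser grid.
-/

set_option autoImplicit false

namespace Pool.AB91

open Finset Real MvPolynomial
open Pool.Agent.H49.Ent Pool.Agent.H32.Dense Pool.STK Pool.KA Pool.KSAT Pool.K2S Pool.PB Pool.GEN
open Pool.S6C Pool.RCD Pool.LA91 Pool.OWN68 Pool.AJW Pool.AJX Pool.CHT Pool.PN18 Pool.LPK12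
open Pool.TE46 Pool.AB63 Pool.AB62 Pool.AB28

variable {m : ℕ} {S : PCl m}

/-- **(n10) Nearby levels** of the first label, more digits of the second label. -/
theorem rw2_lvl {C₀ : ℝ} (htm : TmC S C₀) {Ψ : Fm2 m} {κ₁ κ₂ : Fin m}
    {w p₁ p₂ p₁' p₂' a₁ a₂ q h e e' x : ℝ} {N₀ : ℕ} (H : Rw2 S Ψ κ₁ κ₂ w p₁ p₂ a₁ a₂ q h e N₀)
    (hp₁ : |p₁' - p₁| ≤ x) (hp₂ : p₂ ≤ p₂') (he : e + 2 * x * Real.log 2 < e') :
    Rw2 S Ψ κ₁ κ₂ w p₁' p₂' a₁ a₂ q h e' N₀ := by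
  have hx : 0 ≤ x := (abs_nonneg _).trans hp₁
  obtain ⟨b1, b2⟩ := abs_le.1 hp₁
  obtain ⟨J₀, hJ₀⟩ := exists_nat_ge (3 * Real.log 9 / (e' - (e + 2 * x * Real.log 2)))
  intro i j hij hj
  refine Bas.mono J₀ ((H i j hij hj).and (Pool.GRW.tmc_bas htm one_pos)) ?_
  rintro J hJ F A ⟨h1, hA, -⟩ V C z z' G₁ G₂ c hc
  have hcl := isLaw_cond F.isLaw hA
  have h0 := hcl.nonneg
  have h2 := h1 V C z z' G₁ G₂ c hc
  have h3 := oj_dig hcl κ₂ z' G₂ ⌊w * J⌋₊ 0 (n := p₂ + a₂ * (q - q * i / N₀))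
    (n' := p₂' + a₂ * (q - q * i / N₀)) (g' := 0) (by linarith) le_rfl
  have h4 := oj_dig hcl κ₁ z' G₁ ⌊w * J⌋₊ 0 (n := p₁' + a₁ * (q - q * i / N₀))
    (n' := p₁ + a₁ * (q - q * i / N₀)) (g' := x) (by linarith) hx
  have h5 := oj_dig hcl κ₁ z' G₁ ⌊w * J⌋₊ 0 (n := p₁ + a₁ * (q - q * j / N₀))
    (n' := p₁' + a₁ * (q - q * j / N₀)) (g' := x) (by linarith) hx
  obtain ⟨X, hX⟩ : ∃ X : F.Ω → ℤ, X = fun ω => ⌊(2 : ℝ) ^ ((p₁ + a₁ * (q - q * i / N₀)) * J) *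
    ojet F κ₁ 0 (G₁ (z' (slam F ⌊w * J⌋₊ ω))) ω⌋ := ⟨_, rfl⟩
  obtain ⟨X', hX'⟩ : ∃ X : F.Ω → ℤ, X = fun ω => ⌊(2 : ℝ) ^ ((p₁' + a₁ * (q - q * i / N₀)) * J) *
    ojet F κ₁ 0 (G₁ (z' (slam F ⌊w * J⌋₊ ω))) ω⌋ := ⟨_, rfl⟩
  obtain ⟨Y, hY⟩ : ∃ Y : F.Ω → ℤ, Y = fun ω => ⌊(2 : ℝ) ^ ((p₁ + a₁ * (q - q * j / N₀)) * J) *
    ojet F κ₁ 0 (G₁ (z' (slam F ⌊w * J⌋₊ ω))) ω⌋ := ⟨_, rfl⟩
  obtain ⟨Y', hY'⟩ : ∃ Y : F.Ω → ℤ, Y = fun ω => ⌊(2 : ℝ) ^ ((p₁' + a₁ * (q - q * j / N₀)) * J) *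
    ojet F κ₁ 0 (G₁ (z' (slam F ⌊w * J⌋₊ ω))) ω⌋ := ⟨_, rfl⟩
  obtain ⟨Z, hZ⟩ : ∃ Z : F.Ω → ℤ, Z = fun ω => ⌊(2 : ℝ) ^ ((p₂ + a₂ * (q - q * i / N₀)) * J) *
    ojet F κ₂ 0 (G₂ (z' (slam F ⌊w * J⌋₊ ω))) ω⌋ := ⟨_, rfl⟩
  obtain ⟨Z', hZ'⟩ : ∃ Z' : F.Ω → ℤ, Z' = fun ω =>
    ⌊(2 : ℝ) ^ ((p₂' + a₂ * (q - q * i / N₀)) * J) *
    ojet F κ₂ 0 (G₂ (z' (slam F ⌊w * J⌋₊ ω))) ω⌋ := ⟨_, rfl⟩
  obtain ⟨R, hR⟩ : ∃ R : F.Ω → V × (C × (ℕ × F.ζ)), R = fun ω =>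
    (z' (slam F ⌊w * J⌋₊ ω), (c (slam F ⌊w * J⌋₊ ω), F.W ω)) := ⟨_, rfl⟩
  obtain ⟨p, hp⟩ : ∃ p : F.Ω → ℝ, p = Pool.Agent.H49.Ent.cond F.p A True := ⟨_, rfl⟩
  rw [← hp] at h0 h2 h3 h4 h5 ⊢
  have g2 : CH p X (fun ω => (Y ω, (Z ω, R ω))) ≤
      ((a₁ - h) * ((q - q * i / N₀) - (q - q * j / N₀)) * Real.log 2 + e) * J := by
    rw [hX, hY, hZ, hR]
    exact h2
  have g3 : CH p Z Z' ≤ 0 * J * Real.log 2 + Real.log 9 := by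
    rw [hZ, hZ']
    exact h3
  have g3a : CH p X' X ≤ x * J * Real.log 2 + Real.log 9 := by
    rw [hX, hX']
    exact h4
  have g3b : CH p Y Y' ≤ x * J * Real.log 2 + Real.log 9 := by
    rw [hY, hY']
    exact h5
  have g4 := CH_le_add h0 X' X (fun ω => (Y' ω, (Z' ω, R ω)))
  have g5 : CH p X' (fun ω => (X ω, (Y' ω, (Z' ω, R ω)))) ≤ CH p X' X :=
    CH_mono_cond h0 fun _ _ _ _ hh => (Prod.ext_iff.mp hh).1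
  have g6 := CH_le_add h0 X Y (fun ω => (Y' ω, (Z' ω, R ω)))
  have g7 : CH p Y (fun ω => (Y' ω, (Z' ω, R ω))) ≤ CH p Y Y' :=
    CH_mono_cond h0 fun _ _ _ _ hh => (Prod.ext_iff.mp hh).1
  have g8 := CH_le_add h0 X Z (fun ω => (Y ω, (Y' ω, (Z' ω, R ω))))
  have g9 : CH p Z (fun ω => (Y ω, (Y' ω, (Z' ω, R ω)))) ≤ CH p Z Z' :=
    CH_mono_cond h0 fun _ _ _ _ hh => by
      simp only [Prod.mk.injEq] at hh
      exact hh.2.2.1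
  have g10 : CH p X (fun ω => (Z ω, (Y ω, (Y' ω, (Z' ω, R ω))))) ≤
      CH p X (fun ω => (Y ω, (Z ω, R ω))) :=
    CH_mono_cond h0 fun _ _ _ _ hh => by
      simp only [Prod.mk.injEq] at hh ⊢
      exact ⟨hh.2.1, hh.1, hh.2.2.2.2⟩
  have h6 : 3 * Real.log 9 ≤ (e' - (e + 2 * x * Real.log 2)) * J := by
    have h6 : (J₀ : ℝ) ≤ J := by exact_mod_cast hJ
    have h7 := hJ₀.trans h6
    rw [div_le_iff₀ (by linarith)] at h7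
    linarith
  have g11 : CH p X' (fun ω => (Y' ω, (Z' ω, R ω))) ≤
      ((a₁ - h) * ((q - q * i / N₀) - (q - q * j / N₀)) * Real.log 2 + e') * J := by
    linarith
  rw [hX', hY', hZ', hR] at g11
  exact g11

/-- **(n11) A coarser grid.** -/
theorem rw2_sub {Ψ : Fm2 m} {κ₁ κ₂ : Fin m} {w p₁ p₂ a q h e : ℝ} {N k N' : ℕ}
    (H : Rw2 S Ψ κ₁ κ₂ w p₁ p₂ a a q h e N) (hk : k * N' ≤ N) (hN : 0 < N) (hN' : 0 < N') :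
    Rw2 S Ψ κ₁ κ₂ w (p₁ + a * (q - q * k * N' / N)) (p₂ + a * (q - q * k * N' / N)) a a
      (q * k * N' / N) h e N' := by
  have hN0 : (0 : ℝ) < N := by exact_mod_cast hN
  have hN0' : (0 : ℝ) < N' := by exact_mod_cast hN'
  have lev : ∀ (p : ℝ) (i : ℕ), p + a * (q - q * k * N' / N) +
      a * (q * k * N' / N - q * k * N' / N * i / N') = p + a * (q - q * ((k * i : ℕ) : ℝ) / N) := by
    intro p i
    push_cast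
    field_simp
    ring
  have lev2 : ∀ i j : ℕ, (a - h) * ((q * k * N' / N - q * k * N' / N * i / N') -
      (q * k * N' / N - q * k * N' / N * j / N')) =
      (a - h) * ((q - q * ((k * i : ℕ) : ℝ) / N) - (q - q * ((k * j : ℕ) : ℝ) / N)) := by
    intro i j
    push_cast
    field_simp
    ring
  intro i j hij hj
  refine Bas.mono 0 (H (k * i) (k * j) (Nat.mul_le_mul_left _ hij)
    ((Nat.mul_le_mul_left _ hj).trans hk)) ?_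
  intro J _ F A h1 V C z z' G₁ G₂ c hc
  have h2 := h1 V C z z' G₁ G₂ c hc
  rw [lev p₁ i, lev p₁ j, lev p₂ i, lev2 i j]
  exact h2

end Pool.AB91
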