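import Pool.Agent.H63.AB.Bxn

/-!
# Fewer windows of a sub-box

`BoxD.shift`, `BoxD.cut`, `BoxH.shift`: the facts at the windows `x k, .., x N`.
-/

set_option autoImplicit false

namespace Pool.AB63

open Finset Real MvPolynomial
open Pool.Agent.H49.Ent Pool.Agent.H32.Dense Pool.STK Pool.KA Pool.KSAT Pool.K2S Pool.PB Pool.GEN
open Pool.S6C Pool.RCD Pool.LA91 Pool.OWN68 Pool.AJW Pool.AJX Pool.CHT Pool.PN18 Pool.LPK12
open Pool.TE46 Pool.AB91

variable {m : ℕ} {S : PCl m} {c : ℕ → Fin m} {r K kt : ℕ} {a b : ℝ} {sn : ℕ → ℝ → ℝ} {γ s : ℝ}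
  {U : Type} {Qp : Qt m U} {x : ℕ → ℝ} {N : ℕ} {u η : ℝ} {θ : ℕ → ℕ → ℕ → ℝ} {φ : ℕ → ℝ}

/-- **The windows from the index** `k` on. -/
theorem BoxD.shift (B : BoxD S c r K kt a b sn γ s Qp x N u η θ φ) {k : ℕ} (hk : k ≤ N) :
    BoxD S c r K kt a b sn γ s Qp (fun i => x (i + k)) (N - k) u η
      (fun l i j => θ l (i + k) (j + k)) φ where
  tm := B.tm
  u0 := B.u0
  s0 := B.s0
  s1 := B.s1
  xs := fun n hn => by
    show x (n + k) = x (0 + k) + n * u
    rw [B.xs (n + k) (by omega), B.xs (0 + k) (by omega)]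
    push_cast
    ring
  x1 := by
    show x (N - k + k) ≤ 1
    rw [Nat.sub_add_cancel hk]
    exact B.x1
  exu := B.exu
  exn := B.exn
  nu := fun n hn => B.nu (n + k) (by omega)
  nn := fun n hn => B.nn (n + k) (by omega)
  zu := fun n hn => B.zu (n + k) (by omega)
  zn := fun n hn => B.zn (n + k) (by omega)
  rf := fun l h1 h2 i j hij hj => B.rf l h1 h2 (i + k) (j + k) (by omega) (by omega)
  ra := fun l h1 h2 i j hij hj => B.ra l h1 h2 (i + k) (j + k) (by omega) (by omega)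
  ad := fun l h1 h2 i j n hij hjn hn => B.ad l h1 h2 (i + k) (j + k) (n + k) (by omega) (by omega)
    (by omega)
  ip := fun l h1 h2 i j n hij hjn hn => B.ip l h1 h2 (i + k) (j + k) (n + k) (by omega) (by omega)
    (by omega)
  vf := fun l h1 h2 i j hij hj => B.vf l h1 h2 (i + k) (j + k) (by omega) (by omega)
  va := fun l h1 h2 i j hij hj => B.va l h1 h2 (i + k) (j + k) (by omega) (by omega)

/-- **The first windows.** -/
theorem BoxD.cut (B : BoxD S c r K kt a b sn γ s Qp x N u η θ φ) {N' : ℕ} (hN : N' ≤ N) :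
    BoxD S c r K kt a b sn γ s Qp x N' u η θ φ where
  tm := B.tm
  u0 := B.u0
  s0 := B.s0
  s1 := B.s1
  xs := fun n hn => B.xs n (hn.trans hN)
  x1 := B.on hN
  exu := B.exu
  exn := B.exn
  nu := fun n hn => B.nu n (hn.trans hN)
  nn := fun n hn => B.nn n (hn.trans hN)
  zu := fun n hn => B.zu n (hn.trans hN)
  zn := fun n hn => B.zn n (hn.trans hN)
  rf := fun l h1 h2 i j hij hj => B.rf l h1 h2 i j hij (hj.trans hN)
  ra := fun l h1 h2 i j hij hj => B.ra l h1 h2 i j hij (hj.trans hN)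
  ad := fun l h1 h2 i j n hij hjn hn => B.ad l h1 h2 i j n hij hjn (hn.trans hN)
  ip := fun l h1 h2 i j n hij hjn hn => B.ip l h1 h2 i j n hij hjn (hn.trans hN)
  vf := fun l h1 h2 i j hij hj => B.vf l h1 h2 i j hij (hj.trans hN)
  va := fun l h1 h2 i j hij hj => B.va l h1 h2 i j hij (hj.trans hN)

/-- **The windows from the index** `k` on, with the hops. -/
theorem BoxH.shift {m0 E i : ℕ} {εh : ℕ → ℝ} {dh : ℕ → ℝ → ℝ}
    (B : BoxH m0 E i εh dh S c r K kt a b sn γ s Qp x N u η θ φ) {k : ℕ} (hk : k ≤ N) :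
    BoxH m0 E i εh dh S c r K kt a b sn γ s Qp (fun i => x (i + k)) (N - k) u η
      (fun l i j => θ l (i + k) (j + k)) φ where
  toBoxD := B.toBoxD.shift hk
  deep := by
    have h1 := B.toBoxD.mn (Nat.zero_le (0 + k)) (by omega)
    have h2 := B.deep
    show a * (m0 + 1) * (E * u) + s ≤ x (0 + k) - b
    linarith
  tu := fun h n hn => B.tu h (n + k) (by omega)
  tn := fun h n hn => B.tn h (n + k) (by omega)
  sm := B.sm
  hop := fun j h1 h2 n h3 h4 al hal => by
    have h5 := B.hop j h1 h2 (n + k) (by omega) (by omega) al hal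
    rw [show n + k - m0 * E = n - m0 * E + k by omega] at h5
    exact h5

end Pool.AB63
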